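import Pool.Agent.Helper15.ULG.H3Final
import Pool.Agent.Helper99.UL.Final

set_option autoImplicit false

namespace Pool.Agent.Results.MP_7de60f_ag.NoUlrichSheaf

open MvPolynomial AlgebraicGeometry CategoryTheory Pool.Agent.Helper15.ULG

attribute [local instance] MvPolynomial.gradedAlgebra

/-- Over every algebraically closed field k of characteristic zero there is a smooth projective
surface X of degree 1715 in projective 21-space with homogeneous ideal P, integral, with
integrally closed local rings and integrally closed homogeneous coordinate ring, on which there is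
no Ulrich sheaf. -/
theorem result : ∀ (k : Type) [Field k] [IsAlgClosed k] [CharZero k],
    ∃ (X : Scheme.{0}) (ι : X ⟶ projSp k 21) (P : Ideal (MvPolynomial (Fin 22) k)),
      IsIntegral X ∧ IsClosedImmersion ι ∧
      (∀ x : X, IsIntegrallyClosed (X.presheaf.stalk x)) ∧
      (∀ f, f ∈ P ↔ ι ⁻¹ᵁ Proj.basicOpen (homogeneousSubmodule (Fin 22) k) f = ⊥) ∧
      IsIntegrallyClosed (MvPolynomial (Fin 22) k ⧸ P) ∧
      (∀ t : ℕ, 20 ≤ t → 2 * (Module.finrank k ((homogeneousSubmodule (Fin 22) k t).map
        (Ideal.Quotient.mkₐ k P).toLinearMap) : ℤ) = 1715 * t * (t - 5) + 2 * 4802) ∧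
      (∀ a : Fin 22 → k, a ≠ 0 → (∀ f ∈ P, eval a f = 0) →
        Module.finrank k (Pool.Agent.Helper99.UL.coneTangent P a) ≤ 3) ∧
      ∀ F : X.Modules, ¬ IsUlrichSheaf ι F :=
  fun k _ _ _ => scheme_of_graded' (Pool.Agent.Helper99.UL.Final.result k)

end Pool.Agent.Results.MP_7de60f_ag.NoUlrichSheaf
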